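import Mathlib

set_option autoImplicit false
open Cardinal Ordinal Set

namespace Pool.Agent.H.MP_66ab92_lc

def Down {X : Type} (I : Set (Set X)) : Prop := ∀ A ∈ I, ∀ B, B ⊆ A → B ∈ I

def SigmaIdeal {X : Type} (I : Set (Set X)) : Prop :=
  ∅ ∈ I ∧ Down I ∧ ∀ f : ℕ → Set X, (∀ n, f n ∈ I) → ⋃ n, f n ∈ I

def BorelSigmaIdeal (I : Set (Set (ℕ → Bool))) : Prop :=
  SigmaIdeal I ∧ ∀ A ∈ I, ∃ B ∈ I, A ⊆ B ∧ @MeasurableSet _ (borel (ℕ → Bool)) B

noncomputable def add {X : Type} (I : Set (Set X)) : Cardinal :=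
  sInf {κ | ∃ S : Set (Set X), S ⊆ I ∧ ⋃₀ S ∉ I ∧ #S = κ}

def Chain {X : Type} (P : Set (Set X) → Prop) (I : Set (Set X)) (γ : Ordinal.{0})
    (J : Ordinal.{0} → Set (Set X)) : Prop :=
  Order.IsSuccLimit γ ∧ (∀ α < γ, P (J α)) ∧ I = ⋃ α < γ, J α ∧
    ∀ α β, α < β → β < γ → J α ⊂ J β

lemma rec_choice {β : Type} (P : ∀ a : Ordinal.{0}, (Iio a → β) → β → Prop)
    (h : ∀ a f, ∃ b, P a f b) : ∃ d : Ordinal.{0} → β, ∀ a, P a (fun x => d x) (d a) := by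
  choose F hF using h
  let d : Ordinal.{0} → β :=
    (wellFounded_lt (α := Ordinal.{0})).fix fun a prev => F a fun x => prev x.1 x.2
  have hd : ∀ a, d a = F a fun x => d x := fun a => WellFounded.fix_eq _ _ a
  exact ⟨d, fun a => by rw [hd a]; exact hF a _⟩

lemma small {X : Type} {I : Set (Set X)} {γ : Ordinal.{0}} (h : γ < (add I).ord)
    (f : Iio γ → Set X) (hf : ∀ b, f b ∈ I) : ⋃ b, f b ∈ I := by
  by_contra hn
  have h1 : add I ≤ #(range f) := csInf_le' ⟨_, range_subset_iff.2 hf, hn, rfl⟩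
  have h2 := mk_range_le_lift (f := f)
  rw [Cardinal.mk_Iio_ordinal, Cardinal.lift_lift, Cardinal.lift_le] at h2
  exact (lt_ord.1 h).not_ge (h1.trans h2)

lemma low {X : Type} {I : Set (Set X)} {γ : Ordinal.{0}} {J : Ordinal.{0} → Set (Set X)}
    (h : Chain Down I γ J) (hs : ∀ f : Iio γ → Set X, (∀ b, f b ∈ I) → ⋃ b, f b ∈ I) : False := by
  obtain ⟨h1, h2, h3, h4⟩ := h
  choose A a1 a2 using fun b : Iio γ =>
    exists_of_ssubset (h4 b _ (Order.lt_succ b.1) (h1.succ_lt b.2))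
  have := hs A fun b => by
    rw [h3]
    exact mem_iUnion₂.2 ⟨_, h1.succ_lt b.2, a1 b⟩
  rw [h3] at this
  obtain ⟨b, hb, c⟩ := mem_iUnion₂.1 this
  exact a2 ⟨b, hb⟩ (h2 b hb _ c _ (subset_iUnion A ⟨b, hb⟩))

lemma un {X : Type} {I : Set (Set X)} (hI : SigmaIdeal I) {S : Set (Set X)} (h1 : S ⊆ I)
    (h2 : S.Countable) : ⋃₀ S ∈ I := by
  rcases S.eq_empty_or_nonempty with rfl | h
  · simpa using hI.1
  · obtain ⟨f, rfl⟩ := h2.exists_eq_range h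
    exact hI.2.2 f (range_subset_iff.1 h1)

lemma star {X : Type} {I : Set (Set X)} (hI : SigmaIdeal I) (hn : ⋃₀ I ∉ I) :
    ∃ J, Chain Down I (add I).ord J := by
  classical
  obtain ⟨S, s1, s2, s3⟩ : add I ∈ {κ | ∃ S : Set (Set X), S ⊆ I ∧ ⋃₀ S ∉ I ∧ #S = κ} :=
    csInf_mem ⟨_, I, subset_rfl, hn, rfl⟩
  have hi : ℵ₀ ≤ add I := by
    by_contra h
    exact s2 (un hI s1 (le_aleph0_iff_set_countable.1 (s3 ▸ (not_le.1 h).le)))
  obtain ⟨e⟩ : Nonempty (Iio (add I).ord ≃ S) := by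
    rw [← lift_mk_eq', Cardinal.mk_Iio_ordinal, s3]
    simp
  have hw : ∀ V ∈ I, ∃ A ∈ S, ¬ A ⊆ V := fun V hV => by
    by_contra h
    push Not at h
    exact s2 (hI.2.1 V hV _ (sUnion_subset h))
  obtain ⟨B, hB⟩ := rec_choice (β := Set X) (fun a prev B => ∀ h : a < (add I).ord,
      (∀ b, prev b ∈ I) → B ∈ I ∧ (e ⟨a, h⟩).1 ⊆ B ∧ ∀ b, prev b ⊂ B) fun a prev => by
    by_cases h : a < (add I).ord ∧ ∀ b, prev b ∈ I
    · have h1 := small h.1 prev h.2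
      obtain ⟨A, a1, a2⟩ := hw _ h1
      refine ⟨⋃₀ {A, (e ⟨a, h.1⟩).1, ⋃ b, prev b}, fun _ _ => ⟨un hI ?_ (toFinite _).countable,
        subset_sUnion_of_mem (by simp), fun b => ⟨(subset_iUnion prev b).trans
          (subset_sUnion_of_mem (by simp)), fun c => a2 ((subset_sUnion_of_mem (by simp)).trans
            (c.trans (subset_iUnion prev b)))⟩⟩⟩
      exact insert_subset (s1 a1) (insert_subset (s1 (e _).2) (singleton_subset_iff.2 h1))
    · exact ⟨∅, fun a b => (h ⟨a, b⟩).elim⟩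
  have hm : ∀ a, a < (add I).ord → B a ∈ I := fun a => by
    induction a using WellFoundedLT.induction with
    | ind a ih => exact fun h => (hB a h fun b => ih b b.2 (b.2.trans h)).1
  have hB' := fun a h => hB a h fun b => hm b (b.2.trans h)
  refine ⟨fun a => {A ∈ I | ¬ B a ⊆ A}, isSuccLimit_ord hi,
    fun a _ A hA C hC => ⟨hI.2.1 A hA.1 C hC, fun c => hA.2 (c.trans hC)⟩, ?_,
    fun a b h1 h2 => ⟨fun A hA => ⟨hA.1, fun c => hA.2 (((hB' b h2).2.2 ⟨a, h1⟩).1.trans c)⟩,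
      fun c => (c ⟨hm a (h1.trans h2), ((hB' b h2).2.2 ⟨a, h1⟩).2⟩).2 subset_rfl⟩⟩
  refine Subset.antisymm (fun A hA => ?_) (iUnion₂_subset fun _ _ => sep_subset _ _)
  obtain ⟨C, c1, c2⟩ := hw A hA
  obtain ⟨⟨a, h⟩, ha⟩ := e.surjective ⟨C, c1⟩
  refine mem_iUnion₂.2 ⟨a, h, hA, fun c => c2 ?_⟩
  have := (hB' a h).2.1
  rw [ha] at this
  exact this.trans c

lemma ctbl : ∃ J, Chain SigmaIdeal {A : Set (ℕ → Bool) | A.Countable} ω₁ J := by
  obtain ⟨e⟩ : Nonempty (Iio (ω₁ : Ordinal.{0}) ↪ (ℕ → Bool)) := by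
    rw [← lift_mk_le', Cardinal.mk_Iio_ordinal, ← ord_aleph, card_ord]
    simpa using aleph_one_le_continuum
  refine ⟨fun a => {A | A.Countable ∧ ∀ b, e b ∈ A → b.1 < a}, isSuccLimit_omega 1,
    fun a _ => ⟨⟨countable_empty, fun _ h => h.elim⟩,
      fun A hA B hB => ⟨hA.1.mono hB, fun b h => hA.2 b (hB h)⟩,
      fun f hf => ⟨countable_iUnion fun n => (hf n).1, fun b h =>
        (mem_iUnion.1 h).elim fun n h => (hf n).2 b h⟩⟩, ?_,
    fun a b h1 h2 => ⟨fun A hA => ⟨hA.1, fun c h => (hA.2 c h).trans h1⟩, fun c => ?_⟩⟩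
  · refine Subset.antisymm (fun A hA => ?_) (iUnion₂_subset fun _ _ _ h => h.1)
    have := (Countable.preimage_of_injOn hA e.injective.injOn).to_subtype
    refine mem_iUnion₂.2 ⟨⨆ b : e ⁻¹' A, Order.succ b.1.1, Ordinal.iSup_lt_omega_one fun b =>
      (isSuccLimit_omega 1).succ_lt b.1.2, hA, fun b h => ?_⟩
    refine (Order.lt_succ b.1).trans_le (le_ciSup (f := fun b : e ⁻¹' A => Order.succ b.1.1)
      ⟨ω₁, ?_⟩ ⟨b, h⟩)
    rintro _ ⟨b, rfl⟩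
    exact ((isSuccLimit_omega 1).succ_lt b.1.2).le
  · have := (c (a := {e ⟨a, h1.trans h2⟩}) ⟨countable_singleton _, fun b h => by
      rw [e.injective h]; exact h1⟩).2 _ rfl
    exact lt_irrefl _ this

end Pool.Agent.H.MP_66ab92_lc
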